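import Pool.Agent.Helper97.Nag.Goals

/-!
# NAG (MP_d3128a_ag): packet NAG-REDK (reduction modulo the curve of degree `k`)
-/

set_option autoImplicit false

namespace Pool.Agent.Helper89.Nag.REDK

open Pool.Agent.Helper97.Tate Pool.Agent.Helper97.Nag
open MvPolynomial

/-- the property to be proved -/
def Q {K : Type} [Field K] (G : MvPolynomial (Fin 3) K) (k d : ℕ) (z : MvPolynomial (Fin 3) K) :
    Prop :=
  ∃ y r : MvPolynomial (Fin 3) K,
    z = G * y + r ∧ r.IsHomogeneous d ∧ ∀ e : Fin 3 →₀ ℕ, coeff e r ≠ 0 → e 1 < k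

section

variable {K : Type} [Field K] {G : MvPolynomial (Fin 3) K} {k d : ℕ}

theorem Q_zero : Q G k d 0 :=
  ⟨0, 0, by simp, isHomogeneous_zero _ _ _, by simp⟩

theorem Q_add {z z' : MvPolynomial (Fin 3) K}
    (h : Q G k d z) (h' : Q G k d z') : Q G k d (z + z') := by
  obtain ⟨y, r, h1, h2, h3⟩ := h
  obtain ⟨y', r', h1', h2', h3'⟩ := h'
  refine ⟨y + y', r + r', ?_, h2.add h2', ?_⟩
  · rw [h1, h1']
    ring
  · intro e he
    rw [coeff_add] at he
    by_cases h4 : coeff e r = 0
    · rw [h4, zero_add] at he
      exact h3' e he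
    · exact h3 e h4

theorem Q_smul (c : K) {z : MvPolynomial (Fin 3) K}
    (h : Q G k d z) : Q G k d (C c * z) := by
  obtain ⟨y, r, h1, h2, h3⟩ := h
  refine ⟨C c * y, C c * r, ?_, ?_, ?_⟩
  · rw [h1]
    ring
  · have := (isHomogeneous_C (Fin 3) c).mul h2
    rwa [zero_add] at this
  · intro e he
    rw [coeff_C_mul] at he
    exact h3 e (right_ne_zero_of_mul he)

theorem Q_G (y : MvPolynomial (Fin 3) K) : Q G k d (G * y) :=
  ⟨y, 0, by simp, isHomogeneous_zero _ _ _, by simp⟩

theorem Q_sum {ι : Type} (s : Finset ι) (f : ι → MvPolynomial (Fin 3) K)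
    (h : ∀ i ∈ s, Q G k d (f i)) : Q G k d (∑ i ∈ s, f i) := by
  classical
  induction s using Finset.induction_on with
  | empty =>
    rw [Finset.sum_empty]
    exact Q_zero
  | insert v S hv ih =>
    rw [Finset.sum_insert hv]
    exact Q_add (h v (Finset.mem_insert_self _ _))
      (ih fun i hi => h i (Finset.mem_insert_of_mem hi))

theorem deg3 (v : Fin 3 →₀ ℕ) : v.degree = v 0 + v 1 + v 2 := by
  rw [Finsupp.degree_eq_sum, Fin.sum_univ_three]

theorem lt_of_ne (v : Fin 3 →₀ ℕ) (hd : v.degree = k) (hv : v ≠ Finsupp.single 1 k) : v 1 < k := by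
  rw [deg3] at hd
  by_contra hc
  push Not at hc
  have h1 : v 1 = k := by omega
  have h0 : v 0 = 0 := by omega
  have h2 : v 2 = 0 := by omega
  apply hv
  ext i
  fin_cases i
  · simpa using h0
  · simpa using h1
  · simpa using h2

theorem Q_mon (hG : G.IsHomogeneous k) (hu : coeff (Finsupp.single 1 k) G ≠ 0) (b : ℕ) :
    ∀ e : Fin 3 →₀ ℕ, e 1 = b → e.degree = d → Q G k d (monomial e (1 : K)) := by
  classical
  induction b using Nat.strong_induction_on with
  | _ b ih =>
    intro e he hd
    by_cases hb : b < k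
    · refine ⟨0, monomial e 1, by simp, ?_, ?_⟩
      · exact isHomogeneous_monomial 1 hd
      · intro e' he'
        rw [coeff_monomial] at he'
        by_cases h : e = e'
        · rw [← h, he]
          exact hb
        · rw [if_neg h] at he'
          exact absurd rfl he'
    · obtain ⟨e', he'⟩ : ∃ e' : Fin 3 →₀ ℕ, e = Finsupp.single 1 k + e' := by
        have hle : Finsupp.single 1 k ≤ e := by
          rw [Finsupp.single_le_iff]
          omega
        exact ⟨e - Finsupp.single 1 k, (add_tsub_cancel_of_le hle).symm⟩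
      have hb' : e' 1 + k = b := by
        rw [← he, he']
        simp [add_comm]
      have hd' : k + e'.degree = d := by
        rw [← hd, he', map_add, Finsupp.degree_single]
      set u : K := coeff (Finsupp.single 1 k) G with hudef
      have hmem : Finsupp.single 1 k ∈ G.support := mem_support_iff.mpr hu
      have hG2 : G = monomial (Finsupp.single 1 k) u +
          ∑ v ∈ G.support.erase (Finsupp.single 1 k), monomial v (coeff v G) := by
        conv_lhs => rw [G.as_sum]
        rw [← Finset.add_sum_erase _ _ hmem]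
      have hrest : Q G k d ((∑ v ∈ G.support.erase (Finsupp.single 1 k),
          monomial v (coeff v G)) * monomial e' 1) := by
        rw [Finset.sum_mul]
        refine Q_sum _ _ ?_
        intro v hv
        rw [Finset.mem_erase] at hv
        have hvd : v.degree = k := by
          rw [Finsupp.degree_eq_weight_one]
          exact hG (mem_support_iff.mp hv.2)
        have hv1 : v 1 < k := lt_of_ne v hvd hv.1
        have h1 : monomial v (coeff v G) * monomial e' (1 : K) =
            C (coeff v G) * monomial (v + e') (1 : K) := by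
          rw [monomial_mul, C_mul_monomial]
        rw [h1]
        apply Q_smul
        refine ih (v 1 + e' 1) (by omega) _ ?_ ?_
        · rw [Finsupp.add_apply]
        · rw [map_add, hvd, hd']
      have key : monomial e (1 : K) = C u⁻¹ * (G * monomial e' (1 : K) + C (-1 : K) *
          ((∑ v ∈ G.support.erase (Finsupp.single 1 k),
          monomial v (coeff v G)) * monomial e' 1)) := by
        have hc : (C u⁻¹ : MvPolynomial (Fin 3) K) * C u = 1 := by
          rw [← C_mul, inv_mul_cancel₀ hu, C_1]
        have h2 : G * monomial e' (1 : K) + C (-1 : K) *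
            ((∑ v ∈ G.support.erase (Finsupp.single 1 k),
            monomial v (coeff v G)) * monomial e' 1) = C u * monomial e (1 : K) := by
          conv_lhs =>
            congr
            · rw [hG2]
          rw [he', C_mul_monomial, add_mul, monomial_mul, mul_one, C_neg, C_1]
          ring
        rw [h2, ← mul_assoc, hc, one_mul]
      rw [key]
      exact Q_smul _ (Q_add (Q_G _) (Q_smul _ hrest))

theorem Q_all (hG : G.IsHomogeneous k) (hu : coeff (Finsupp.single 1 k) G ≠ 0)
    (z : MvPolynomial (Fin 3) K) (hz : z.IsHomogeneous d) : Q G k d z := by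
  rw [z.as_sum]
  refine Q_sum _ _ ?_
  intro v hv
  have h1 : monomial v (coeff v z) = C (coeff v z) * monomial v (1 : K) := by
    rw [C_mul_monomial, mul_one]
  rw [h1]
  apply Q_smul
  refine Q_mon hG hu _ v rfl ?_
  rw [Finsupp.degree_eq_weight_one]
  exact hz (mem_support_iff.mp hv)

end

theorem coeff_g0 (F : Type) [Field F] (k : ℕ) (hk : 3 ≤ k) :
    coeff (Finsupp.single 1 k) (g0 F k) = -1 := by
  unfold g0
  have h1 : (X 0 * X 1 ^ (k - 2) * X 2 : MvPolynomial (Fin 3) F) =
      monomial (Finsupp.single 0 1 + Finsupp.single 1 (k - 2) + Finsupp.single 2 1) 1 := by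
    rw [X_pow_eq_monomial, X, X, monomial_mul, monomial_mul, one_mul, one_mul]
  rw [coeff_sub, coeff_sub, h1, X_pow_eq_monomial, X_pow_eq_monomial, coeff_monomial,
    coeff_monomial, coeff_monomial, if_pos rfl, if_neg, if_neg]
  · ring
  · intro h
    have h2 := DFunLike.congr_fun h 2
    simp at h2
    omega
  · intro h
    have h2 := DFunLike.congr_fun h 0
    simp at h2

/-- **REDK** -/
theorem t : S_REDK := by
  intro F _ k g hk hg d z hz
  obtain ⟨hg1, hg2, _⟩ := hg
  have hG : (crvK g).IsHomogeneous k := hg1.map _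
  have hc : PowerSeries.constantCoeff (coeff (Finsupp.single 1 k) g) = -1 := by
    rw [← coeff_g0 F k hk, ← hg2, coeff_map]
  have hu : coeff (Finsupp.single 1 k) (crvK g) ≠ 0 := by
    unfold crvK
    rw [coeff_map]
    intro h0
    have h1 : coeff (Finsupp.single 1 k) g = 0 := by
      apply IsFractionRing.injective (OO F) (KK F)
      rw [h0, map_zero]
    rw [h1, map_zero] at hc
    exact one_ne_zero (neg_eq_zero.mp hc.symm)
  obtain ⟨y, r, h1, h2, h3⟩ := Q_all hG hu z hz
  exact ⟨y, r, h1, h2, fun e he => h3 e (mem_support_iff.mp he)⟩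

end Pool.Agent.Helper89.Nag.REDK
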